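import Pool.Agent.U469.EW.Stm

/-!
Project EW, package BAL: the balance of the energy of a weak solution with finitely many weights.
-/

set_option autoImplicit false

open MeasureTheory Set Filter Topology
open scoped ENNReal

namespace Pool.Agent.U103.EW.BAL

open Pool.Agent.U469.EW

lemma sqr_real (g : ℝ → ℝ) (c t : ℝ) (hg : IntervalIntegrable g volume 0 t) :
    (c + ∫ x in (0 : ℝ)..t, g x) ^ 2
      = c ^ 2 + 2 * ∫ s in (0 : ℝ)..t, g s * (c + ∫ x in (0 : ℝ)..s, g x) := by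
  set G : ℝ → ℝ := fun s => ∫ x in (0 : ℝ)..s, g x with hG
  have hAC : AbsolutelyContinuousOnInterval G 0 t :=
    hg.absolutelyContinuousOnInterval_intervalIntegral (c := 0) (by simp)
  have h1 := hAC.integral_deriv_mul_eq_sub hAC
  have hG0 : G 0 = 0 := by simp [hG]
  have h2 : ∫ x in (0 : ℝ)..t, deriv G x * G x + G x * deriv G x
      = ∫ x in (0 : ℝ)..t, 2 * (g x * G x) := by
    apply intervalIntegral.integral_congr_ae
    filter_upwards [hg.ae_hasDerivAt_integral] with x hx hx3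
    have h3 : deriv G x = g x := (hx (uIoc_subset_uIcc hx3) 0 (by simp)).deriv
    rw [h3]; ring
  have hint : IntervalIntegrable (fun x => g x * G x) volume 0 t :=
    hg.mul_continuousOn hAC.continuousOn
  have h4 : ∫ s in (0 : ℝ)..t, g s * (c + G s) = c * G t + ∫ s in (0 : ℝ)..t, g s * G s := by
    have h5 : (fun s => g s * (c + G s)) = fun s => c * g s + g s * G s := by
      funext s; ring
    rw [h5, intervalIntegral.integral_add (hg.const_mul c) hint,
      intervalIntegral.integral_const_mul]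
  rw [h2, intervalIntegral.integral_const_mul, hG0] at h1
  change (c + G t) ^ 2 = c ^ 2 + 2 * ∫ s in (0 : ℝ)..t, g s * (c + G s)
  rw [h4]
  nlinarith

lemma sqr_complex (g : ℝ → ℂ) (c : ℂ) (t : ℝ) (hg : IntervalIntegrable g volume 0 t) :
    ‖c + ∫ x in (0 : ℝ)..t, g x‖ ^ 2 = ‖c‖ ^ 2 + 2 * ∫ s in (0 : ℝ)..t,
      (g s * (starRingEnd ℂ) (c + ∫ x in (0 : ℝ)..s, g x)).re := by
  have hre : ∀ s ∈ uIcc 0 t, (∫ x in (0 : ℝ)..s, g x).re = ∫ x in (0 : ℝ)..s, (g x).re := by
    intro s hs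
    have h := Complex.reCLM.intervalIntegral_comp_comm
      (hg.mono_set (uIcc_subset_uIcc left_mem_uIcc hs))
    simpa using h.symm
  have him : ∀ s ∈ uIcc 0 t, (∫ x in (0 : ℝ)..s, g x).im = ∫ x in (0 : ℝ)..s, (g x).im := by
    intro s hs
    have h := Complex.imCLM.intervalIntegral_comp_comm
      (hg.mono_set (uIcc_subset_uIcc left_mem_uIcc hs))
    simpa using h.symm
  have hgr : IntervalIntegrable (fun x => (g x).re) volume 0 t := by
    have := hg
    rw [intervalIntegrable_iff] at this ⊢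
    exact this.re
  have hgi : IntervalIntegrable (fun x => (g x).im) volume 0 t := by
    have := hg
    rw [intervalIntegrable_iff] at this ⊢
    exact this.im
  have hcr : ContinuousOn (fun s => c.re + ∫ x in (0 : ℝ)..s, (g x).re) (uIcc 0 t) :=
    continuousOn_const.add
      (hgr.absolutelyContinuousOnInterval_intervalIntegral (c := 0) (by simp)).continuousOn
  have hci : ContinuousOn (fun s => c.im + ∫ x in (0 : ℝ)..s, (g x).im) (uIcc 0 t) :=
    continuousOn_const.add
      (hgi.absolutelyContinuousOnInterval_intervalIntegral (c := 0) (by simp)).continuousOn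
  have h1 := sqr_real _ c.re t hgr
  have h2 := sqr_real _ c.im t hgi
  have h3 : ∫ s in (0 : ℝ)..t, (g s * (starRingEnd ℂ) (c + ∫ x in (0 : ℝ)..s, g x)).re
      = (∫ s in (0 : ℝ)..t, (g s).re * (c.re + ∫ x in (0 : ℝ)..s, (g x).re)) +
        ∫ s in (0 : ℝ)..t, (g s).im * (c.im + ∫ x in (0 : ℝ)..s, (g x).im) := by
    rw [← intervalIntegral.integral_add (hgr.mul_continuousOn hcr) (hgi.mul_continuousOn hci)]
    apply intervalIntegral.integral_congr
    intro s hs
    simp only [Complex.mul_re, Complex.conj_re, Complex.conj_im, Complex.add_re, Complex.add_im,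
      hre s hs, him s hs]
    ring
  rw [h3, Complex.sq_norm, Complex.sq_norm, Complex.normSq_apply, Complex.normSq_apply,
    Complex.add_re, Complex.add_im, hre t right_mem_uIcc, him t right_mem_uIcc]
  nlinarith

lemma sq_nonneg' (a : Fld) (k : Wv) : 0 ≤ U469.EW.sq a k := by unfold U469.EW.sq; positivity

lemma norm_sq_le (a : Fld) (k : Wv) (i : Fin 3) : ‖a k i‖ ^ 2 ≤ U469.EW.sq a k :=
  Finset.single_le_sum (f := fun i => ‖a k i‖ ^ 2) (fun _ _ => by positivity) (Finset.mem_univ i)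

lemma norm_le (a : Fld) (k : Wv) (i : Fin 3) : ‖a k i‖ ≤ √(U469.EW.sq a k) :=
  Real.le_sqrt_of_sq_le (norm_sq_le a k i)

lemma dt_le (a : Fld) (j k : Wv) : ‖dt (a j) k‖ ≤ (∑ i, |(k i : ℝ)|) * √(U469.EW.sq a j) := by
  unfold dt
  refine (norm_sum_le _ _).trans ?_
  rw [Finset.sum_mul]
  refine Finset.sum_le_sum fun i _ => ?_
  rw [norm_mul, mul_comm]
  have h : ‖((k i : ℤ) : ℂ)‖ = |(k i : ℝ)| := by
    rw [Complex.norm_intCast]
  rw [h]
  exact mul_le_mul_of_nonneg_left (norm_le a j i) (abs_nonneg _)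

lemma term_le (a : Fld) (j k : Wv) (i : Fin 3) :
    ‖dt (a j) k * a (k - j) i‖ ≤ (∑ i, |(k i : ℝ)|) * (U469.EW.sq a j + U469.EW.sq a (k - j)) := by
  rw [norm_mul]
  have h1 := dt_le a j k
  have h2 := norm_le a (k - j) i
  have hK : 0 ≤ ∑ i, |(k i : ℝ)| := Finset.sum_nonneg fun i _ => abs_nonneg _
  calc ‖dt (a j) k‖ * ‖a (k - j) i‖ ≤ ((∑ i, |(k i : ℝ)|) * √(U469.EW.sq a j)) * √(U469.EW.sq a (k - j)) :=
        mul_le_mul h1 h2 (norm_nonneg _) (by positivity)
    _ = (∑ i, |(k i : ℝ)|) * (√(U469.EW.sq a j) * √(U469.EW.sq a (k - j))) := by ring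
    _ ≤ _ := by
        apply mul_le_mul_of_nonneg_left _ hK
        nlinarith [Real.sq_sqrt (sq_nonneg' a j), Real.sq_sqrt (sq_nonneg' a (k - j)),
          sq_nonneg (√(U469.EW.sq a j) - √(U469.EW.sq a (k - j))), sq_nonneg' a j, sq_nonneg' a (k - j)]

lemma conv_facts (a : Fld) (h : Summable (U469.EW.sq a)) (k : Wv) (i : Fin 3) :
    Summable (fun j => dt (a j) k * a (k - j) i) ∧
      ‖conv a k i‖ ≤ (∑ i, |(k i : ℝ)|) * (2 * ∑' j, U469.EW.sq a j) := by
  have hs : Summable (fun j => U469.EW.sq a (k - j)) := by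
    have h1 := (Equiv.subLeft k).summable_iff (f := U469.EW.sq a)
    exact h1.2 h
  have ht : ∑' j, U469.EW.sq a (k - j) = ∑' j, U469.EW.sq a j := by
    have h1 := (Equiv.subLeft k).tsum_eq (U469.EW.sq a)
    exact h1
  have hS : Summable (fun j => (∑ i, |(k i : ℝ)|) * (U469.EW.sq a j + U469.EW.sq a (k - j))) :=
    (h.add hs).mul_left _
  have hn : Summable (fun j => ‖dt (a j) k * a (k - j) i‖) :=
    Summable.of_nonneg_of_le (fun j => norm_nonneg _) (fun j => term_le a j k i) hS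
  refine ⟨hn.of_norm, ?_⟩
  unfold conv
  refine (norm_tsum_le_tsum_norm hn).trans ?_
  refine (hn.tsum_le_tsum (fun j => term_le a j k i) hS).trans ?_
  rw [tsum_mul_left, h.tsum_add hs, ht]
  apply le_of_eq; ring

lemma summable_of (a : Fld) (E : ℝ)
    (h : ∑' k, ENNReal.ofReal (U469.EW.sq a k) ≤ ENNReal.ofReal E) :
    Summable (U469.EW.sq a) ∧ ∑' k, U469.EW.sq a k ≤ max E 0 := by
  have hne : ∑' k, ENNReal.ofReal (U469.EW.sq a k) ≠ ⊤ := (h.trans_lt ENNReal.ofReal_lt_top).ne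
  have hs : Summable (U469.EW.sq a) := by
    have h1 := ENNReal.summable_toReal hne
    refine h1.congr fun k => ?_
    rw [ENNReal.toReal_ofReal (sq_nonneg' a k)]
  refine ⟨hs, ?_⟩
  rw [← ENNReal.ofReal_tsum_of_nonneg (fun k => sq_nonneg' a k) hs] at h
  rcases le_or_gt E 0 with hE | hE
  · rw [ENNReal.ofReal_eq_zero.2 hE] at h
    have := ENNReal.ofReal_eq_zero.1 (le_antisymm h bot_le)
    exact this.trans (le_max_right _ _)
  · exact ((ENNReal.ofReal_le_ofReal_iff hE.le).1 h).trans (le_max_left _ _)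

/-- a uniform bound for the energy -/
lemma unif {ν T : ℝ} {f u : ℝ → Fld} (h : IsWeak ν T f u) :
    ∃ E : ℝ, 0 ≤ E ∧ ∀ t ∈ Icc 0 T, Summable (U469.EW.sq (u t)) ∧
      ∑' k, U469.EW.sq (u t) k ≤ E := by
  obtain ⟨E, hE⟩ := h.energy
  exact ⟨max E 0, le_max_right _ _, fun t ht => summable_of (u t) E (hE t ht)⟩

lemma u_bdd {ν T : ℝ} {f u : ℝ → Fld} (h : IsWeak ν T f u) :
    ∃ E : ℝ, 0 ≤ E ∧ ∀ t ∈ Icc 0 T, ∀ k i, ‖u t k i‖ ≤ E := by
  obtain ⟨E, hE0, hE⟩ := unif h
  refine ⟨√E, Real.sqrt_nonneg _, fun t ht k i => (norm_le _ _ _).trans ?_⟩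
  apply Real.sqrt_le_sqrt
  exact ((hE t ht).1.le_tsum k (fun j _ => sq_nonneg' _ j)).trans (hE t ht).2

lemma dt_meas {ν T : ℝ} {f u : ℝ → Fld} (h : IsWeak ν T f u) (j k : Wv) :
    AEStronglyMeasurable (fun s => dt (u s j) k) (volume.restrict (Icc 0 T)) := by
  unfold dt
  exact Finset.aestronglyMeasurable_fun_sum _ fun i _ => (h.meas j i).mul_const _

lemma conv_meas {ν T : ℝ} {f u : ℝ → Fld} (h : IsWeak ν T f u) (k : Wv) (i : Fin 3) :
    AEStronglyMeasurable (fun s => conv (u s) k i) (volume.restrict (Icc 0 T)) := by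
  obtain ⟨E, hE0, hE⟩ := unif h
  refine aestronglyMeasurable_of_tendsto_ae (atTop : Filter (Finset Wv))
    (f := fun (S : Finset Wv) s => ∑ j ∈ S, dt (u s j) k * u s (k - j) i) (fun S => ?_) ?_
  · exact Finset.aestronglyMeasurable_fun_sum _ fun j _ => (dt_meas h j k).mul (h.meas (k - j) i)
  · refine (ae_restrict_iff' measurableSet_Icc).2 (ae_of_all _ fun s hs => ?_)
    exact (conv_facts (u s) (hE s hs).1 k i).1.hasSum

lemma integrable_bdd {T B : ℝ} {g : ℝ → ℂ}
    (hm : AEStronglyMeasurable g (volume.restrict (Icc 0 T)))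
    (hb : ∀ t ∈ Icc 0 T, ‖g t‖ ≤ B) : IntegrableOn g (Icc 0 T) volume := by
  have hc : IntegrableOn (fun _ : ℝ => B) (Icc 0 T) volume :=
    integrableOn_const (by simp)
  refine Integrable.mono' hc hm ?_
  exact (ae_restrict_iff' measurableSet_Icc).2 (ae_of_all _ hb)

lemma conv_int {ν T : ℝ} {f u : ℝ → Fld} (h : IsWeak ν T f u) (k : Wv) (i : Fin 3) :
    IntegrableOn (fun s => conv (u s) k i) (Icc 0 T) volume := by
  obtain ⟨E, hE0, hE⟩ := unif h
  refine integrable_bdd (B := (∑ i, |(k i : ℝ)|) * (2 * E)) (conv_meas h k i) fun t ht => ?_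
  refine (conv_facts (u t) (hE t ht).1 k i).2.trans ?_
  have hK : 0 ≤ ∑ i, |(k i : ℝ)| := Finset.sum_nonneg fun i _ => abs_nonneg _
  have h2 := (hE t ht).2
  exact mul_le_mul_of_nonneg_left (by linarith) hK

lemma u_int {ν T : ℝ} {f u : ℝ → Fld} (h : IsWeak ν T f u) (k : Wv) (i : Fin 3) :
    IntegrableOn (fun s => u s k i) (Icc 0 T) volume := by
  obtain ⟨E, hE0, hE⟩ := u_bdd h
  exact integrable_bdd (B := E) (h.meas k i) fun t ht => hE t ht k i

lemma f_int {ν T : ℝ} {f u : ℝ → Fld} (h : IsWeak ν T f u) (k : Wv) (i : Fin 3) :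
    IntegrableOn (fun s => f s k i) (Icc 0 T) volume := by
  have hm : AEStronglyMeasurable (fun t => U469.EW.sq (f t) k) (volume.restrict (Icc 0 T)) := by
    unfold U469.EW.sq
    exact Finset.aestronglyMeasurable_fun_sum _ fun j _ => ((h.fmeas k j).norm.pow 2)
  have hi : IntegrableOn (fun t => U469.EW.sq (f t) k) (Icc 0 T) volume := by
    refine ⟨hm, ?_⟩
    rw [hasFiniteIntegral_iff_ofReal (ae_of_all _ fun t => sq_nonneg' _ _)]
    refine lt_of_le_of_lt (lintegral_mono fun t => ?_) (lt_top_iff_ne_top.2 h.force)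
    exact ENNReal.le_tsum (f := fun k => ENNReal.ofReal (U469.EW.sq (f t) k)) k
  have hc : IntegrableOn (fun t => 1 + U469.EW.sq (f t) k) (Icc 0 T) volume :=
    (integrableOn_const (by simp)).add hi
  refine Integrable.mono' hc (h.fmeas k i) (ae_of_all _ fun t => ?_)
  have h1 := norm_sq_le (f t) k i
  change ‖f t k i‖ ≤ 1 + U469.EW.sq (f t) k
  nlinarith [sq_nonneg (‖f t k i‖ - 1), norm_nonneg (f t k i)]

/-- the integrand of the equation -/
noncomputable def rhs (ν : ℝ) (f u : ℝ → Fld) (k : Wv) (i : Fin 3) (s : ℝ) : ℂ :=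
  -((ν * nsq k : ℝ) : ℂ) * u s k i - Complex.I * prj k (conv (u s) k) i + f s k i

lemma rhs_int {ν T : ℝ} {f u : ℝ → Fld} (h : IsWeak ν T f u) (k : Wv) (i : Fin 3) :
    IntegrableOn (rhs ν f u k i) (Icc 0 T) volume := by
  have h1 : IntegrableOn (fun s => prj k (conv (u s) k) i) (Icc 0 T) volume := by
    unfold prj dt
    refine (conv_int h k i).sub ?_
    refine Integrable.div_const ?_ _
    refine Integrable.mul_const ?_ _
    exact integrable_finsetSum _ fun j _ => (conv_int h k j).mul_const _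
  exact (((u_int h k i).const_mul _).sub (h1.const_mul _)).add (f_int h k i)

lemma mul_bdd_int {T B : ℝ} {g v : ℝ → ℂ} (hg : IntegrableOn g (Icc 0 T) volume)
    (hv : AEStronglyMeasurable v (volume.restrict (Icc 0 T)))
    (hb : ∀ t ∈ Icc 0 T, ‖v t‖ ≤ B) :
    IntegrableOn (fun s => g s * (starRingEnd ℂ) (v s)) (Icc 0 T) volume := by
  refine Integrable.mul_bdd (c := B) hg (Complex.continuous_conj.comp_aestronglyMeasurable hv) ?_
  refine (ae_restrict_iff' measurableSet_Icc).2 (ae_of_all _ fun s hs => ?_)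
  simpa using hb s hs

lemma ii {T t : ℝ} {E : Type*} [NormedAddCommGroup E] (ht : t ∈ Icc 0 T) {g : ℝ → E}
    (hg : IntegrableOn g (Icc 0 T) volume) : IntervalIntegrable g volume 0 t :=
  (intervalIntegrable_iff_integrableOn_Icc_of_le ht.1).2
    (hg.mono_set (Icc_subset_Icc le_rfl ht.2))

/-- the balance for one component -/
lemma one_comp {ν T : ℝ} {f u : ℝ → Fld} (h : IsWeak ν T f u) (k : Wv) (i : Fin 3) {t : ℝ}
    (ht : t ∈ Icc 0 T) :
    ‖u t k i‖ ^ 2 = ‖u 0 k i‖ ^ 2 +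
      2 * ∫ s in (0 : ℝ)..t, (rhs ν f u k i s * (starRingEnd ℂ) (u s k i)).re := by
  have h1 := sqr_complex (rhs ν f u k i) (u 0 k i) t (ii ht (rhs_int h k i))
  have h2 : ∀ s ∈ Icc 0 T, u 0 k i + ∫ x in (0 : ℝ)..s, rhs ν f u k i x = u s k i :=
    fun s hs => (h.eqn s hs k i).symm
  rw [h2 t ht] at h1
  rw [h1]
  congr 2
  apply intervalIntegral.integral_congr
  intro s hs
  rw [uIcc_of_le ht.1] at hs
  have h3 : s ∈ Icc 0 T := ⟨hs.1, hs.2.trans ht.2⟩
  simp only [h2 s h3]

/-- the algebra of one wave vector -/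
lemma alg (ν : ℝ) (f u : ℝ → Fld) (k : Wv) (s : ℝ) (hd : dt (u s k) k = 0) :
    ∑ i, (rhs ν f u k i s * (starRingEnd ℂ) (u s k i)).re
      = -(ν * (nsq k * U469.EW.sq (u s) k))
        + (∑ i, conv (u s) k i * (starRingEnd ℂ) (u s k i)).im
        + (∑ i, f s k i * (starRingEnd ℂ) (u s k i)).re := by
  have hd' : ∑ i, (k i : ℂ) * (starRingEnd ℂ) (u s k i) = 0 := by
    have h1 := congrArg (starRingEnd ℂ) hd
    unfold dt at h1
    simp only [map_sum, map_mul, map_zero] at h1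
    rw [← h1]
    refine Finset.sum_congr rfl fun i _ => ?_
    have h2 : (starRingEnd ℂ) ((k i : ℤ) : ℂ) = ((k i : ℤ) : ℂ) := by simp
    rw [h2]; ring
  have h1 : ∑ i, rhs ν f u k i s * (starRingEnd ℂ) (u s k i)
      = -((ν * nsq k : ℝ) : ℂ) * ((U469.EW.sq (u s) k : ℝ) : ℂ)
        - Complex.I * (∑ i, conv (u s) k i * (starRingEnd ℂ) (u s k i))
        + ∑ i, f s k i * (starRingEnd ℂ) (u s k i) := by
    have e1 : ((U469.EW.sq (u s) k : ℝ) : ℂ) = ∑ i, u s k i * (starRingEnd ℂ) (u s k i) := by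
      unfold U469.EW.sq
      push_cast
      refine Finset.sum_congr rfl fun i _ => ?_
      rw [Complex.mul_conj, Complex.normSq_eq_norm_sq]
      push_cast; rfl
    have e2 : ∀ i, rhs ν f u k i s * (starRingEnd ℂ) (u s k i)
        = -((ν * nsq k : ℝ) : ℂ) * (u s k i * (starRingEnd ℂ) (u s k i))
          - Complex.I * (conv (u s) k i * (starRingEnd ℂ) (u s k i))
          + f s k i * (starRingEnd ℂ) (u s k i)
          + Complex.I * (dt (conv (u s) k) k / (nsq k : ℂ)) *
              ((k i : ℂ) * (starRingEnd ℂ) (u s k i)) := by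
      intro i
      unfold rhs prj
      ring
    rw [Finset.sum_congr rfl fun i _ => e2 i]
    rw [Finset.sum_add_distrib, Finset.sum_add_distrib, Finset.sum_sub_distrib, ← Finset.mul_sum,
      ← Finset.mul_sum, ← Finset.mul_sum, hd', e1]
    ring
  rw [← Complex.re_sum, h1]
  simp only [Complex.add_re, Complex.sub_re, Complex.mul_re, Complex.neg_re, Complex.neg_im,
    Complex.ofReal_re, Complex.ofReal_im, Complex.I_re, Complex.I_im]
  ring

lemma D_int {ν T : ℝ} {f u : ℝ → Fld} (h : IsWeak ν T f u) (k : Wv) :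
    IntegrableOn (fun s => nsq k * U469.EW.sq (u s) k) (Icc 0 T) volume := by
  obtain ⟨E, hE0, hE⟩ := u_bdd h
  refine Integrable.const_mul ?_ _
  have e : (fun s => U469.EW.sq (u s) k)
      = fun s => ∑ i, ‖u s k i * (starRingEnd ℂ) (u s k i)‖ := by
    funext s
    unfold U469.EW.sq
    exact Finset.sum_congr rfl fun i _ => by
      rw [norm_mul, RCLike.norm_conj, pow_two]
  rw [e]
  exact integrable_finsetSum _ fun i _ =>
    (mul_bdd_int (B := E) (u_int h k i) (h.meas k i) fun t ht => hE t ht k i).norm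

lemma C_int {ν T : ℝ} {f u : ℝ → Fld} (h : IsWeak ν T f u) (k : Wv) :
    IntegrableOn (fun s => (∑ i, conv (u s) k i * (starRingEnd ℂ) (u s k i)).im)
      (Icc 0 T) volume := by
  obtain ⟨E, hE0, hE⟩ := u_bdd h
  have h1 : Integrable (fun s => ∑ i, conv (u s) k i * (starRingEnd ℂ) (u s k i))
      (volume.restrict (Icc 0 T)) := integrable_finsetSum _ fun i _ =>
    mul_bdd_int (B := E) (conv_int h k i) (h.meas k i) fun t ht => hE t ht k i
  exact h1.im

lemma F_int {ν T : ℝ} {f u : ℝ → Fld} (h : IsWeak ν T f u) (k : Wv) :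
    IntegrableOn (fun s => (∑ i, f s k i * (starRingEnd ℂ) (u s k i)).re)
      (Icc 0 T) volume := by
  obtain ⟨E, hE0, hE⟩ := u_bdd h
  have h1 : Integrable (fun s => ∑ i, f s k i * (starRingEnd ℂ) (u s k i))
      (volume.restrict (Icc 0 T)) := integrable_finsetSum _ fun i _ =>
    mul_bdd_int (B := E) (f_int h k i) (h.meas k i) fun t ht => hE t ht k i
  exact h1.re

/-- the balance for one wave vector -/
lemma one_vec {ν T : ℝ} {f u : ℝ → Fld} (h : IsWeak ν T f u) (k : Wv) {t : ℝ}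
    (ht : t ∈ Icc 0 T) :
    U469.EW.sq (u t) k / 2 + ν * ∫ s in (0 : ℝ)..t, nsq k * U469.EW.sq (u s) k
      = U469.EW.sq (u 0) k / 2 +
        (∫ s in (0 : ℝ)..t, (∑ i, conv (u s) k i * (starRingEnd ℂ) (u s k i)).im) +
        ∫ s in (0 : ℝ)..t, (∑ i, f s k i * (starRingEnd ℂ) (u s k i)).re := by
  have hD := D_int h k
  have hC := C_int h k
  have hF := F_int h k
  have hsum : U469.EW.sq (u t) k = U469.EW.sq (u 0) k +
      2 * ∑ i, ∫ s in (0 : ℝ)..t, (rhs ν f u k i s * (starRingEnd ℂ) (u s k i)).re := by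
    unfold U469.EW.sq
    rw [Finset.mul_sum, ← Finset.sum_add_distrib]
    exact Finset.sum_congr rfl fun i _ => one_comp h k i ht
  obtain ⟨E, hE0, hE⟩ := u_bdd h
  have hr : ∀ i, IntegrableOn (fun s => (rhs ν f u k i s * (starRingEnd ℂ) (u s k i)).re)
      (Icc 0 T) volume := fun i =>
    (mul_bdd_int (B := E) (rhs_int h k i) (h.meas k i) fun t ht => hE t ht k i).re
  rw [← intervalIntegral.integral_finsetSum fun i _ => ii ht (hr i)] at hsum
  have h2 : ∫ s in (0 : ℝ)..t, ∑ i, (rhs ν f u k i s * (starRingEnd ℂ) (u s k i)).re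
      = ∫ s in (0 : ℝ)..t, (-(ν * (nsq k * U469.EW.sq (u s) k))
        + (∑ i, conv (u s) k i * (starRingEnd ℂ) (u s k i)).im
        + (∑ i, f s k i * (starRingEnd ℂ) (u s k i)).re) := by
    apply intervalIntegral.integral_congr
    intro s hs
    rw [uIcc_of_le ht.1] at hs
    exact alg ν f u k s (h.div s ⟨hs.1, hs.2.trans ht.2⟩ k)
  have h3 : ∫ s in (0 : ℝ)..t, (-(ν * (nsq k * U469.EW.sq (u s) k))
        + (∑ i, conv (u s) k i * (starRingEnd ℂ) (u s k i)).im
        + (∑ i, f s k i * (starRingEnd ℂ) (u s k i)).re)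
      = -(ν * ∫ s in (0 : ℝ)..t, nsq k * U469.EW.sq (u s) k)
        + (∫ s in (0 : ℝ)..t, (∑ i, conv (u s) k i * (starRingEnd ℂ) (u s k i)).im)
        + ∫ s in (0 : ℝ)..t, (∑ i, f s k i * (starRingEnd ℂ) (u s k i)).re := by
    have hD' : IntervalIntegrable (fun s => -(ν * (nsq k * U469.EW.sq (u s) k))) volume 0 t :=
      ((ii ht hD).const_mul ν).neg
    rw [intervalIntegral.integral_add (hD'.add (ii ht hC)) (ii ht hF),
      intervalIntegral.integral_add hD' (ii ht hC), intervalIntegral.integral_neg,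
      intervalIntegral.integral_const_mul]
  rw [h2, h3] at hsum
  linarith

theorem t_BAL : S_BAL := by
  intro ν T f u hT h F φ t ht
  have e1 : (∫ s in (0 : ℝ)..t, ∑ k ∈ F, φ k * (nsq k * U469.EW.sq (u s) k))
      = ∑ k ∈ F, φ k * ∫ s in (0 : ℝ)..t, nsq k * U469.EW.sq (u s) k := by
    rw [intervalIntegral.integral_finsetSum fun k _ => (ii ht (D_int h k)).const_mul (φ k)]
    exact Finset.sum_congr rfl fun k _ => intervalIntegral.integral_const_mul _ _
  have e2 : (∫ s in (0 : ℝ)..t, flux F φ (u s))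
      = ∑ k ∈ F, φ k * ∫ s in (0 : ℝ)..t,
          (∑ i, conv (u s) k i * (starRingEnd ℂ) (u s k i)).im := by
    have e : (fun s => flux F φ (u s)) = fun s => ∑ k ∈ F, φ k *
        (∑ i, conv (u s) k i * (starRingEnd ℂ) (u s k i)).im := by
      funext s
      unfold flux
      rw [Complex.im_sum]
      exact Finset.sum_congr rfl fun k _ => Complex.im_ofReal_mul _ _
    rw [e, intervalIntegral.integral_finsetSum fun k _ => (ii ht (C_int h k)).const_mul (φ k)]
    exact Finset.sum_congr rfl fun k _ => intervalIntegral.integral_const_mul _ _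
  have e3 : (∫ s in (0 : ℝ)..t, ∑ k ∈ F, φ k *
        (∑ i, f s k i * (starRingEnd ℂ) (u s k i)).re)
      = ∑ k ∈ F, φ k * ∫ s in (0 : ℝ)..t,
          (∑ i, f s k i * (starRingEnd ℂ) (u s k i)).re := by
    rw [intervalIntegral.integral_finsetSum fun k _ => (ii ht (F_int h k)).const_mul (φ k)]
    exact Finset.sum_congr rfl fun k _ => intervalIntegral.integral_const_mul _ _
  rw [e1, e2, e3, Finset.sum_div, Finset.sum_div, Finset.mul_sum, ← Finset.sum_add_distrib,
    ← Finset.sum_add_distrib, ← Finset.sum_add_distrib]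
  refine Finset.sum_congr rfl fun k _ => ?_
  have h1 := one_vec h k ht
  linear_combination (φ k) * h1

end Pool.Agent.U103.EW.BAL
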